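import Mathlib

/-!
# Burnside's marks over a base
-/

open scoped Classical

set_option linter.unusedSectionVars false
set_option linter.unusedVariables false

noncomputable section

namespace Pool.Agent.X209.CC

/-- the number of the fixed points of `U` over `l` -/
def mark {M X L : Type} [Group M] [MulAction M X] (a : X → L) (U : Subgroup M) (l : L) : ℕ :=
  Nat.card {x : X // a x = l ∧ ∀ g ∈ U, g • x = x}

/-- the action on an invariant complement -/
def complAct {M X : Type} [Group M] [MulAction M X] (x0 : X) :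
    MulAction M {x : X // x ∉ MulAction.orbit M x0} where
  smul g x := ⟨g • x.1, fun h => x.2 (by
    obtain ⟨k, hk⟩ := h
    refine ⟨g⁻¹ * k, ?_⟩
    simp only at hk ⊢
    rw [mul_smul, hk, inv_smul_smul])⟩
  one_smul x := Subtype.ext (one_smul M x.1)
  mul_smul g h x := Subtype.ext (mul_smul g h x.1)

lemma mark_split {M X L : Type} [Group M] [Finite X] [MulAction M X] (a : X → L) (U : Subgroup M)
    (l : L) (O : X → Prop) :
    mark a U l = Nat.card {x : {x : X // O x} // a x.1 = l ∧ ∀ g ∈ U, g • x.1 = x.1} +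
      Nat.card {x : {x : X // ¬ O x} // a x.1 = l ∧ ∀ g ∈ U, g • x.1 = x.1} := by
  unfold mark
  rw [← Nat.card_sum]
  refine Nat.card_congr
    { toFun := fun x => if h : O x.1 then Sum.inl ⟨⟨x.1, h⟩, x.2⟩ else Sum.inr ⟨⟨x.1, h⟩, x.2⟩
      invFun := fun s => s.elim (fun x => ⟨x.1.1, x.2⟩) (fun x => ⟨x.1.1, x.2⟩)
      left_inv := fun x => by
        by_cases h : O x.1
        · simp only [h, dif_pos]
          rfl
        · simp only [h, dif_neg, not_false_eq_true]
          rfl
      right_inv := fun s => by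
        rcases s with x | x
        · simp only [Sum.elim_inl]
          rw [dif_pos x.1.2]
        · simp only [Sum.elim_inr]
          rw [dif_neg x.1.2] }

theorem burnside {M L : Type} [Group M] [MulAction M L] (n : ℕ) : ∀ (X Y : Type) [Finite X]
    [Finite Y] [MulAction M X] [MulAction M Y] (a : X → L) (b : Y → L),
    (∀ (g : M) (x : X), a (g • x) = g • a x) → (∀ (g : M) (y : Y), b (g • y) = g • b y) →
    (∀ (U : Subgroup M) (l : L), mark a U l = mark b U l) → Nat.card X ≤ n →
    ∃ f : X ≃ Y, (∀ (g : M) (x : X), f (g • x) = g • f x) ∧ ∀ x, b (f x) = a x := by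
  induction n with
  | zero =>
    intro X Y _ _ _ _ a b ha hb h hn
    have hX : IsEmpty X := by
      rw [← Finite.card_eq_zero_iff]
      omega
    have hY : IsEmpty Y := by
      constructor
      intro y
      have h1 := h (⊥ : Subgroup M) (b y)
      have h2 : mark a (⊥ : Subgroup M) (b y) = 0 := by
        unfold mark
        have : IsEmpty {x : X // a x = b y ∧ ∀ g ∈ (⊥ : Subgroup M), g • x = x} :=
          ⟨fun x => hX.false x.1⟩
        exact Nat.card_of_isEmpty
      have h3 : 0 < mark b (⊥ : Subgroup M) (b y) := by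
        unfold mark
        have : Nonempty {z : Y // b z = b y ∧ ∀ g ∈ (⊥ : Subgroup M), g • z = z} :=
          ⟨⟨y, rfl, fun g hg => by rw [Subgroup.mem_bot.mp hg, one_smul]⟩⟩
        exact Nat.card_pos
      omega
    exact ⟨Equiv.equivOfIsEmpty X Y, fun g x => (hX.false x).elim, fun x => (hX.false x).elim⟩
  | succ n ih =>
    intro X Y _ _ _ _ a b ha hb h hn
    by_cases hXe : IsEmpty X
    · exact ih X Y a b ha hb h (by rw [Finite.card_eq_zero_iff.mpr hXe]; omega)
    rw [not_isEmpty_iff] at hXe
    obtain ⟨x0, hmin⟩ := Finite.exists_min (fun x : X => Nat.card (MulAction.orbit M x))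
    -- an element over the same point, fixed by the stabiliser
    set U := MulAction.stabilizer M x0 with hU
    have h1 : 0 < mark b U (a x0) := by
      rw [← h]
      unfold mark
      have : Nonempty {z : X // a z = a x0 ∧ ∀ g ∈ U, g • z = z} :=
        ⟨⟨x0, rfl, fun g hg => hg⟩⟩
      exact Nat.card_pos
    obtain ⟨⟨y0, hy0, hy0U⟩⟩ : Nonempty {z : Y // b z = a x0 ∧ ∀ g ∈ U, g • z = z} := by
      by_contra hcon
      rw [not_nonempty_iff] at hcon
      have : mark b U (a x0) = 0 := Nat.card_of_isEmpty
      omega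
    have hUle : U ≤ MulAction.stabilizer M y0 := fun g hg => hy0U g hg
    -- the stabilisers agree
    have hxfin : Finite (MulAction.orbit M x0) := inferInstance
    have hyfin : Finite (MulAction.orbit M y0) := inferInstance
    have hxne : Nonempty (MulAction.orbit M x0) := ⟨⟨x0, 1, one_smul M x0⟩⟩
    have hyne : Nonempty (MulAction.orbit M y0) := ⟨⟨y0, 1, one_smul M y0⟩⟩
    have hidx : ∀ {T : Type} [MulAction M T] (t : T),
        (MulAction.stabilizer M t).index = Nat.card (MulAction.orbit M t) := by
      intro T _ t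
      rw [MulAction.index_stabilizer, Nat.card_coe_set_eq]
    have hge : Nat.card (MulAction.orbit M x0) ≤ Nat.card (MulAction.orbit M y0) := by
      have h2 : 0 < mark a (MulAction.stabilizer M y0) (b y0) := by
        rw [h]
        unfold mark
        have : Nonempty {z : Y // b z = b y0 ∧ ∀ g ∈ MulAction.stabilizer M y0, g • z = z} :=
          ⟨⟨y0, rfl, fun g hg => hg⟩⟩
        exact Nat.card_pos
      obtain ⟨⟨x1, hx1, hx1U⟩⟩ :
          Nonempty {z : X // a z = b y0 ∧ ∀ g ∈ MulAction.stabilizer M y0, g • z = z} := by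
        by_contra hcon
        rw [not_nonempty_iff] at hcon
        have : mark a (MulAction.stabilizer M y0) (b y0) = 0 := Nat.card_of_isEmpty
        omega
      have h3 : MulAction.stabilizer M y0 ≤ MulAction.stabilizer M x1 := fun g hg => hx1U g hg
      have h4 : Nat.card (MulAction.orbit M x1) ≤ Nat.card (MulAction.orbit M y0) := by
        rw [← hidx, ← hidx]
        refine Nat.le_of_dvd ?_ (Subgroup.index_dvd_of_le h3)
        rw [hidx]
        exact Nat.card_pos
      exact (hmin x1).trans h4
    have hstab : MulAction.stabilizer M y0 = U := by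
      have h2 := Subgroup.relIndex_mul_index hUle
      rw [hU, hidx x0, hidx y0] at h2
      have hpos : 0 < Nat.card (MulAction.orbit M y0) := Nat.card_pos
      have hrel : U.relIndex (MulAction.stabilizer M y0) = 1 := by
        have hposx : 0 < Nat.card (MulAction.orbit M x0) := Nat.card_pos
        have h3 : U.relIndex (MulAction.stabilizer M y0) * Nat.card (MulAction.orbit M y0) ≤
            1 * Nat.card (MulAction.orbit M y0) := by
          rw [one_mul]
          exact h2.le.trans hge
        have h4 := Nat.le_of_mul_le_mul_right h3 hpos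
        have h5 : U.relIndex (MulAction.stabilizer M y0) ≠ 0 := by
          intro h6
          rw [h6, zero_mul] at h2
          omega
        omega
      exact le_antisymm (Subgroup.relIndex_eq_one.mp hrel) hUle
    have hgx : ∀ g k : M, g • x0 = k • x0 ↔ g • y0 = k • y0 := by
      intro g k
      have e1 : g • x0 = k • x0 ↔ k⁻¹ * g ∈ MulAction.stabilizer M x0 := by
        rw [MulAction.mem_stabilizer_iff, mul_smul, inv_smul_eq_iff]
      have e2 : g • y0 = k • y0 ↔ k⁻¹ * g ∈ MulAction.stabilizer M y0 := by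
        rw [MulAction.mem_stabilizer_iff, mul_smul, inv_smul_eq_iff]
      rw [e1, e2, hstab]
    -- the bijection of the orbits
    have hex : ∀ x : {x : X // x ∈ MulAction.orbit M x0}, ∃ g : M, g • x0 = x.1 := fun x => x.2
    choose γ hγ using hex
    let e : {x : X // x ∈ MulAction.orbit M x0} → {y : Y // y ∈ MulAction.orbit M y0} :=
      fun x => ⟨γ x • y0, ⟨γ x, rfl⟩⟩
    have heg : ∀ (g : M) (hg : g • x0 ∈ MulAction.orbit M x0), (e ⟨g • x0, hg⟩).1 = g • y0 := by
      intro g hg
      exact (hgx _ _).mp (hγ ⟨g • x0, hg⟩)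
    have hebij : Function.Bijective e := by
      constructor
      · rintro ⟨_, g, rfl⟩ ⟨_, k, rfl⟩ hek
        have h2 := congrArg Subtype.val hek
        simp only at h2
        rw [heg, heg] at h2
        exact Subtype.ext ((hgx _ _).mpr h2)
      · rintro ⟨_, k, rfl⟩
        exact ⟨⟨k • x0, ⟨k, rfl⟩⟩, Subtype.ext (heg _ _)⟩
    let E : {x : X // x ∈ MulAction.orbit M x0} ≃ {y : Y // y ∈ MulAction.orbit M y0} :=
      Equiv.ofBijective e hebij
    have hEb : ∀ x, b (E x).1 = a x.1 := by
      rintro ⟨_, k, rfl⟩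
      have h2 : (E ⟨k • x0, ⟨k, rfl⟩⟩).1 = k • y0 := heg _ _
      simp only at h2 ⊢
      rw [h2, hb, ha, hy0]
    have hEfix : ∀ (g : M) x, g • x.1 = x.1 ↔ g • (E x).1 = (E x).1 := by
      rintro g ⟨_, k, rfl⟩
      have h2 : (E ⟨k • x0, ⟨k, rfl⟩⟩).1 = k • y0 := heg _ _
      simp only at h2 ⊢
      rw [h2, ← mul_smul, ← mul_smul]
      exact hgx _ _
    -- the complements
    let _ : MulAction M {x : X // x ∉ MulAction.orbit M x0} := complAct x0
    let _ : MulAction M {y : Y // y ∉ MulAction.orbit M y0} := complAct y0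
    have hsx : ∀ (g : M) (x : {x : X // x ∉ MulAction.orbit M x0}), (g • x).1 = g • x.1 :=
      fun _ _ => rfl
    have hsy : ∀ (g : M) (y : {y : Y // y ∉ MulAction.orbit M y0}), (g • y).1 = g • y.1 :=
      fun _ _ => rfl
    have hmark : ∀ (V : Subgroup M) (l : L),
        mark (fun x : {x : X // x ∉ MulAction.orbit M x0} => a x.1) V l =
          mark (fun y : {y : Y // y ∉ MulAction.orbit M y0} => b y.1) V l := by
      intro V l
      have h2 := h V l
      rw [mark_split a V l (fun x => x ∈ MulAction.orbit M x0),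
        mark_split b V l (fun y => y ∈ MulAction.orbit M y0)] at h2
      have h3 : Nat.card {x : {x : X // x ∈ MulAction.orbit M x0} //
            a x.1 = l ∧ ∀ g ∈ V, g • x.1 = x.1} =
          Nat.card {y : {y : Y // y ∈ MulAction.orbit M y0} //
            b y.1 = l ∧ ∀ g ∈ V, g • y.1 = y.1} := by
        refine Nat.card_congr (E.subtypeEquiv fun x => ?_)
        rw [hEb]
        refine and_congr Iff.rfl (forall_congr' fun g => forall_congr' fun _ => hEfix g x)
      rw [h3] at h2
      have h4 := Nat.add_left_cancel h2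
      have e1 : mark (fun x : {x : X // x ∉ MulAction.orbit M x0} => a x.1) V l =
          Nat.card {x : {x : X // ¬ x ∈ MulAction.orbit M x0} //
            a x.1 = l ∧ ∀ g ∈ V, g • x.1 = x.1} := by
        unfold mark
        refine Nat.card_congr (Equiv.subtypeEquivRight fun x => ?_)
        refine and_congr Iff.rfl (forall_congr' fun g => forall_congr' fun _ => ?_)
        rw [Subtype.ext_iff, hsx]
      have e2 : mark (fun y : {y : Y // y ∉ MulAction.orbit M y0} => b y.1) V l =
          Nat.card {y : {y : Y // ¬ y ∈ MulAction.orbit M y0} //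
            b y.1 = l ∧ ∀ g ∈ V, g • y.1 = y.1} := by
        unfold mark
        refine Nat.card_congr (Equiv.subtypeEquivRight fun x => ?_)
        refine and_congr Iff.rfl (forall_congr' fun g => forall_congr' fun _ => ?_)
        rw [Subtype.ext_iff, hsy]
      rw [e1, e2, h4]
    have hcard : Nat.card {x : X // x ∉ MulAction.orbit M x0} ≤ n := by
      have h2 : Nat.card {x : X // x ∉ MulAction.orbit M x0} < Nat.card X :=
        Finite.card_subtype_lt (x := x0) (fun h => h ⟨1, one_smul M x0⟩)
      omega
    obtain ⟨f, hf1, hf2⟩ := ih {x : X // x ∉ MulAction.orbit M x0}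
      {y : Y // y ∉ MulAction.orbit M y0} (fun x => a x.1) (fun y => b y.1)
      (fun g x => ha g x.1) (fun g y => hb g y.1) hmark hcard
    let Φ : X ≃ Y := (Equiv.sumCompl (fun x => x ∈ MulAction.orbit M x0)).symm.trans
      ((E.sumCongr f).trans (Equiv.sumCompl (fun y => y ∈ MulAction.orbit M y0)))
    have hΦ1 : ∀ (x : X) (hx : x ∈ MulAction.orbit M x0), Φ x = (E ⟨x, hx⟩).1 := by
      intro x hx
      simp only [Φ, Equiv.trans_apply]
      rw [Equiv.sumCompl_symm_apply_of_pos hx]
      rfl
    have hΦ2 : ∀ (x : X) (hx : x ∉ MulAction.orbit M x0), Φ x = (f ⟨x, hx⟩).1 := by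
      intro x hx
      simp only [Φ, Equiv.trans_apply]
      rw [Equiv.sumCompl_symm_apply_of_neg hx]
      rfl
    refine ⟨Φ, ?_, ?_⟩
    · intro g x
      by_cases hx : x ∈ MulAction.orbit M x0
      · obtain ⟨k, rfl⟩ := hx
        have h2 : g • k • x0 ∈ MulAction.orbit M x0 := ⟨g * k, mul_smul g k x0⟩
        simp only
        rw [hΦ1 _ h2, hΦ1 _ ⟨k, rfl⟩]
        have h3 : (E ⟨g • k • x0, h2⟩).1 = (g * k) • y0 := by
          have h4 : (⟨g • k • x0, h2⟩ : {x : X // x ∈ MulAction.orbit M x0}) =
              ⟨(g * k) • x0, ⟨g * k, rfl⟩⟩ := Subtype.ext (mul_smul g k x0).symm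
          rw [h4]
          exact heg _ _
        have h4 : (E ⟨k • x0, ⟨k, rfl⟩⟩).1 = k • y0 := heg _ _
        rw [h3, h4, mul_smul]
      · have h2 : g • x ∉ MulAction.orbit M x0 := (g • (⟨x, hx⟩ :
          {x : X // x ∉ MulAction.orbit M x0})).2
        rw [hΦ2 _ h2, hΦ2 _ hx]
        have h3 : (⟨g • x, h2⟩ : {x : X // x ∉ MulAction.orbit M x0}) = g • ⟨x, hx⟩ := rfl
        rw [h3, hf1, hsy]
    · intro x
      by_cases hx : x ∈ MulAction.orbit M x0
      · rw [hΦ1 _ hx, hEb]
      · rw [hΦ2 _ hx]
        exact hf2 ⟨x, hx⟩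

end Pool.Agent.X209.CC
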