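import Pool.Agent.X209.CC.Corr
import Pool.Agent.X209.PJ.Orb

/-!
# Central quotients and normalisers of Sylow subgroups
-/

open scoped Classical BigOperators
open Pool.Agent.Helper884.IC Pool.Agent.Y63.AWC
open Pool.Agent.X209.PJ (central_char irr_twist finite_irr char_mem)
open Pool.Agent.Y63.KR (conjSub conjSub_eq_iff mem_conjSub)

set_option linter.unusedSectionVars false
set_option linter.unusedVariables false

noncomputable section

namespace Pool.Agent.X209.CC

section nor

variable {p : ℕ} [hp : Fact p.Prime] {G G' : Type} [Group G] [Group G'] [Finite G] (π : G →* G')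
  (hc : π.ker ≤ Subgroup.center G) (P : Sylow p G)

/-- a central `p`-element is in every Sylow subgroup -/
lemma central_mem {k : G} (hk : k ∈ Subgroup.center G) (hkp : ∃ a : ℕ, k ^ p ^ a = 1) :
    k ∈ (P : Subgroup G) := by
  have hz : IsPGroup p (Subgroup.zpowers k) := by
    obtain ⟨a, ha⟩ := hkp
    rintro ⟨x, hx⟩
    obtain ⟨i, hi⟩ := Subgroup.mem_zpowers_iff.mp hx
    refine ⟨a, Subtype.ext ?_⟩
    change x ^ p ^ a = 1
    rw [← hi, ← zpow_natCast, ← zpow_mul, mul_comm, zpow_mul, zpow_natCast, ha, one_zpow]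
  have hn : (Subgroup.zpowers k).Normal := by
    constructor
    intro x hx g
    have hxc : x ∈ Subgroup.center G := by
      have : Subgroup.zpowers k ≤ Subgroup.center G := by
        rw [Subgroup.zpowers_le]
        exact hk
      exact this hx
    rw [Subgroup.mem_center_iff.mp hxc g, mul_inv_cancel_right]
    exact hx
  have h1 : IsPGroup p ((P : Subgroup G) ⊔ Subgroup.zpowers k : Subgroup G) :=
    IsPGroup.to_sup_of_normal_right P.isPGroup' hz
  have h2 := P.is_maximal' h1 le_sup_left
  have h3 : Subgroup.zpowers k ≤ (P : Subgroup G) := by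
    rw [← h2]
    exact le_sup_right
  exact h3 (Subgroup.mem_zpowers k)

lemma conjSub_map' (x : G) (Q : Subgroup G) : conjSub (π x) (Q.map π) = (conjSub x Q).map π := by
  unfold conjSub
  rw [Subgroup.map_map, Subgroup.map_map]
  congr 1
  ext y
  simp

include hc in
theorem nor_comap : (Subgroup.normalizer (((P : Subgroup G).map π : Subgroup G') : Set G')).comap π =
    Subgroup.normalizer ((P : Subgroup G) : Set G) := by
  ext g
  rw [Subgroup.mem_comap, ← conjSub_eq_iff, ← conjSub_eq_iff, conjSub_map']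
  constructor
  · intro h
    have hle : conjSub g (P : Subgroup G) ≤ (P : Subgroup G) := by
      rintro _ ⟨x, hx, rfl⟩
      have hx' : g * x * g⁻¹ ∈ conjSub g (P : Subgroup G) := ⟨x, hx, rfl⟩
      have h1 : π (g * x * g⁻¹) ∈ (conjSub g (P : Subgroup G)).map π := ⟨_, hx', rfl⟩
      rw [h] at h1
      obtain ⟨y, hy, hyx⟩ := h1
      have hk : y⁻¹ * (g * x * g⁻¹) ∈ π.ker := by
        rw [MonoidHom.mem_ker, map_mul, map_inv, hyx, inv_mul_cancel]
      have hkc := hc hk
      -- it is a `p`-element
      obtain ⟨a, ha⟩ := P.isPGroup' ⟨x, hx⟩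
      obtain ⟨b, hb⟩ := P.isPGroup' ⟨y, hy⟩
      have ha' : x ^ p ^ a = 1 := congrArg Subtype.val ha
      have hb' : y ^ p ^ b = 1 := congrArg Subtype.val hb
      have h2 : (g * x * g⁻¹) ^ p ^ a = 1 := by
        rw [conj_pow, ha', mul_one, mul_inv_cancel]
      set k := y⁻¹ * (g * x * g⁻¹) with hkdef
      have h3 : g * x * g⁻¹ = y * k := by rw [hkdef, mul_inv_cancel_left]
      have hcom : Commute y k := (Subgroup.mem_center_iff.mp hkc y)
      have h4 : k ^ p ^ (a + b) = 1 := by
        have h5 : (y * k) ^ p ^ (a + b) = y ^ p ^ (a + b) * k ^ p ^ (a + b) := hcom.mul_pow _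
        have h6 : y ^ p ^ (a + b) = 1 := by
          rw [pow_add, mul_comm, pow_mul, hb', one_pow]
        have h7 : (y * k) ^ p ^ (a + b) = 1 := by
          rw [← h3, pow_add, pow_mul, h2, one_pow]
        rw [h6, h7, one_mul] at h5
        exact h5.symm
      have hkP := central_mem P hkc ⟨_, h4⟩
      change g * x * g⁻¹ ∈ (P : Subgroup G)
      rw [h3]
      exact (P : Subgroup G).mul_mem hy hkP
    exact Subgroup.eq_of_le_of_card_ge hle (Nat.card_congr
      (Subgroup.equivMapOfInjective _ _ (MulAut.conj g).injective).toEquiv).le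
  · intro h
    rw [h]

/-- the projection of the normaliser -/
def norHom : Subgroup.normalizer ((P : Subgroup G) : Set G) →*
    Subgroup.normalizer (((P : Subgroup G).map π : Subgroup G') : Set G') :=
  (π.comp (Subgroup.subtype _)).codRestrict _ (fun x => by
    have h : (x : G) ∈ (Subgroup.normalizer
      (((P : Subgroup G).map π : Subgroup G') : Set G')).comap π := by
      rw [nor_comap π hc P]
      exact x.2
    exact h)

lemma norHom_apply (x : Subgroup.normalizer ((P : Subgroup G) : Set G)) :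
    ((norHom π hc P x : _) : G') = π x := rfl

lemma norHom_surj (hπ : Function.Surjective π) : Function.Surjective (norHom π hc P) := by
  rintro ⟨u, hu⟩
  obtain ⟨g, rfl⟩ := hπ u
  have hg : g ∈ Subgroup.normalizer ((P : Subgroup G) : Set G) := by
    rw [← nor_comap π hc P]
    exact hu
  exact ⟨⟨g, hg⟩, Subtype.ext rfl⟩

end nor

section main

variable {p : ℕ} [hp : Fact p.Prime] {S : Set (RingAut ℂ)} {T : Type} {lab : ℂ → T}

lemma qp_infl {J K : Type} [Group J] [Group K] (ρ : J →* K) (hρ : Function.Surjective ρ)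
    (U : Set (RingAut ℂ)) (t : T) (ψ : K → ℂ) :
    Qp p lab U t (fun x => ψ (ρ x)) ↔ Qp p lab U t ψ := by
  unfold Qp
  simp only [map_one]
  refine and_congr Iff.rfl (and_congr Iff.rfl ?_)
  refine forall_congr' fun σ => forall_congr' fun _ => ?_
  constructor
  · intro h g
    obtain ⟨x, rfl⟩ := hρ g
    exact h x
  · intro h x
    exact h (ρ x)

lemma cnt_triv {J W : Type} [Group J] [Group W] [Subsingleton W] (i : W →* J)
    (Q : (J → ℂ) → Prop) (lam : W →* ℂˣ) :
    cnt i Q lam = Nat.card {χ : J → ℂ // IsIrrChar χ ∧ Q χ} := by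
  unfold cnt
  refine Nat.card_congr (Equiv.subtypeEquivRight fun χ => ?_)
  constructor
  · rintro ⟨h1, _, h2⟩
    exact ⟨h1, h2⟩
  · rintro ⟨h1, h2⟩
    refine ⟨h1, fun w x => ?_, h2⟩
    rw [Subsingleton.elim w 1, map_one, map_one, one_mul, Units.val_one, one_mul]

/-- the embedding of a central subgroup into the normaliser -/
def cinc {G : Type} [Group G] {Z : Subgroup G} (hZ : Z ≤ Subgroup.center G) (P : Subgroup G) :
    Z →* Subgroup.normalizer (P : Set G) :=
  Subgroup.inclusion (hZ.trans (Subgroup.center_le_normalizer _))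

variable {G : Type} [Group G] [Finite G] {Z : Subgroup G}

lemma counts (hZ : Z ≤ Subgroup.center G) (P : Sylow p G) {G' : Type} [Group G'] [Finite G']
    (π : G →* G') (hπ : Function.Surjective π) (Y : Subgroup Z) (hY : π.ker = Y.map Z.subtype)
    (U : Set (RingAut ℂ)) (t : T) :
    cntTriv Z.subtype (Qp p lab U t) Y =
      Nat.card {ψ : G' → ℂ // IsIrrChar ψ ∧ Qp p lab U t ψ} ∧
    cntTriv (cinc hZ (P : Subgroup G)) (Qp p lab U t) Y =
      Nat.card {ψ : Subgroup.normalizer (((P : Subgroup G).map π : Subgroup G') : Set G') → ℂ //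
        IsIrrChar ψ ∧ Qp p lab U t ψ} := by
  have hc : π.ker ≤ Subgroup.center G := by
    rw [hY]
    exact (Subgroup.map_subtype_le _).trans hZ
  constructor
  · rw [cnt_infl π hπ Z.subtype Y hY]
    refine Nat.card_congr (Equiv.subtypeEquivRight fun ψ => ?_)
    rw [qp_infl π hπ]
  · rw [cnt_infl (norHom π hc P) (norHom_surj π hc P hπ) (cinc hZ (P : Subgroup G)) Y ?_]
    · refine Nat.card_congr (Equiv.subtypeEquivRight fun ψ => ?_)
      rw [qp_infl _ (norHom_surj π hc P hπ)]
    · ext x
      have h1 : x ∈ (norHom π hc P).ker ↔ (x : G) ∈ π.ker := by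
        rw [MonoidHom.mem_ker, MonoidHom.mem_ker]
        exact ⟨fun h => congrArg Subtype.val h, fun h => Subtype.ext h⟩
      rw [h1, hY, Subgroup.mem_map, Subgroup.mem_map]
      constructor
      · rintro ⟨y, hy, hyx⟩
        exact ⟨y, hy, Subtype.ext hyx⟩
      · rintro ⟨y, hy, hyx⟩
        exact ⟨y, hy, congrArg Subtype.val hyx⟩

/-- **Main theorem.** -/
theorem main_iff (hZ : Z ≤ Subgroup.center G) (P : Sylow p G) :
    CorrI p S lab Z.subtype (cinc hZ (P : Subgroup G)) ↔
      ∀ Y : Subgroup G, Y ≤ Z → ∀ hY : Y.Normal,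
        CorrI p S lab (⊥ : Subgroup (G ⧸ Y)).subtype
          (cinc (bot_le : (⊥ : Subgroup (G ⧸ Y)) ≤ Subgroup.center (G ⧸ Y))
            ((P : Subgroup G).map (QuotientGroup.mk' Y))) := by
  have : Fintype (Z →* ℂˣ) := Fintype.ofFinite _
  have hiG : ∀ (w : Z) (g : G), Z.subtype w * g = g * Z.subtype w :=
    fun w g => (Subgroup.mem_center_iff.mp (hZ w.2) g).symm
  have hiN : ∀ (w : Z) (g : Subgroup.normalizer ((P : Subgroup G) : Set G)),
      cinc hZ (P : Subgroup G) w * g = g * cinc hZ (P : Subgroup G) w :=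
    fun w g => Subtype.ext (hiG w g)
  constructor
  · intro h Y hYZ hY
    refine corr_of_cnt (fun w g => by
      rw [Subsingleton.elim w 1, map_one, one_mul, mul_one]) (fun w g => by
      rw [Subsingleton.elim w 1, map_one, one_mul, mul_one]) ?_
    intro U hU t lam
    rw [cnt_triv, cnt_triv]
    have hker : (QuotientGroup.mk' Y).ker = (Y.subgroupOf Z).map Z.subtype := by
      rw [QuotientGroup.ker_mk', Subgroup.subgroupOf_map_subtype, inf_eq_left.mpr hYZ]
    obtain ⟨h1, h2⟩ := counts (p := p) (lab := lab) hZ P (QuotientGroup.mk' Y)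
      (QuotientGroup.mk'_surjective Y) (Y.subgroupOf Z) hker U t
    rw [← h1, ← h2, cntTriv_eq _ hiG, cntTriv_eq _ hiN]
    exact Finset.sum_congr rfl fun mu _ => cnt_of_corr hiG hiN h hU t mu
  · intro h
    refine corr_of_cnt hiG hiN ?_
    intro U hU t lam
    refine inversion (fun mu => cnt Z.subtype (Qp p lab U t) mu)
      (fun mu => cnt (cinc hZ (P : Subgroup G)) (Qp p lab U t) mu)
      (fun mu nu hk => cnt_ker _ (qp_stable lab U t) hk)
      (fun mu nu hk => cnt_ker _ (qp_stable lab U t) hk) ?_ _ lam le_rfl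
    intro Y
    rw [← cntTriv_eq _ hiG, ← cntTriv_eq _ hiN]
    have hY : (Y.map Z.subtype).Normal := by
      constructor
      intro x hx g
      have hxc := hZ (Subgroup.map_subtype_le _ hx)
      rw [Subgroup.mem_center_iff.mp hxc g, mul_inv_cancel_right]
      exact hx
    obtain ⟨h1, h2⟩ := counts (p := p) (lab := lab) hZ P (QuotientGroup.mk' (Y.map Z.subtype))
      (QuotientGroup.mk'_surjective _) Y (QuotientGroup.ker_mk' _) U t
    rw [h1, h2]
    have h3 := cnt_of_corr (fun w g => by
      rw [Subsingleton.elim w 1, map_one, one_mul, mul_one]) (fun w g => by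
      rw [Subsingleton.elim w 1, map_one, one_mul, mul_one])
      (h (Y.map Z.subtype) (Subgroup.map_subtype_le _) hY) hU t 1
    rw [cnt_triv, cnt_triv] at h3
    exact h3

end main

end Pool.Agent.X209.CC
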