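import Pool.Agent.X209.CC.Cnt
import Pool.Agent.X209.CC.Burn

/-!
# Correspondences compatible with Galois automorphisms, degrees and central characters
-/

open scoped Classical BigOperators
open Pool.Agent.Helper884.IC Pool.Agent.Y63.AWC
open Pool.Agent.X209.PJ (central_char irr_twist finite_irr char_mem)

set_option linter.unusedSectionVars false
set_option linter.unusedVariables false

noncomputable section

namespace Pool.Agent.X209.CC

/-- the irreducible characters of degree prime to `p` -/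
def IrrP (p : ℕ) (J : Type) [Group J] : Type :=
  {χ : J → ℂ // IsIrrChar χ ∧ ∃ m : ℕ, χ 1 = (m : ℂ) ∧ ¬ p ∣ m}

/-- degree prime to `p` and with a given label, fixed by the automorphisms in `U` -/
def Qp (p : ℕ) {T : Type} (lab : ℂ → T) (U : Set (RingAut ℂ)) (t : T) {J : Type} [Group J]
    (χ : J → ℂ) : Prop :=
  (∃ m : ℕ, χ 1 = (m : ℂ) ∧ ¬ p ∣ m) ∧ lab (χ 1) = t ∧ ∀ σ ∈ U, ∀ g, σ (χ g) = χ g

lemma comm_roots {n : ℕ} (hn : n ≠ 0) {ζ : ℂ} (hζ : IsPrimitiveRoot ζ n) (σ τ : ℂ →+* ℂ) {a : ℂ}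
    (ha : a ∈ IntermediateField.adjoin ℚ ({ζ} : Set ℂ)) : σ (τ a) = τ (σ a) := by
  have hne : NeZero n := ⟨hn⟩
  have hpow : ∀ ρ : ℂ →+* ℂ, ∃ i : ℕ, ρ ζ = ζ ^ i := by
    intro ρ
    obtain ⟨i, _, hi⟩ := hζ.eq_pow_of_pow_eq_one (ξ := ρ ζ) (by
      rw [← map_pow, hζ.pow_eq_one, map_one])
    exact ⟨i, hi.symm⟩
  obtain ⟨i, hi⟩ := hpow σ
  obtain ⟨j, hj⟩ := hpow τ
  induction ha using IntermediateField.adjoin_induction with
  | mem x hx =>
    rw [Set.mem_singleton_iff] at hx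
    rw [hx, hj, hi, map_pow, map_pow, hi, hj, ← pow_mul, ← pow_mul, mul_comm]
  | algebraMap x =>
    have h1 : ∀ ρ : ℂ →+* ℂ, ρ (algebraMap ℚ ℂ x) = algebraMap ℚ ℂ x := by
      intro ρ
      rw [eq_ratCast, map_ratCast]
    rw [h1, h1, h1]
  | add x y _ _ hx hy => rw [map_add, map_add, map_add, map_add, hx, hy]
  | inv x _ hx => rw [map_inv₀, map_inv₀, map_inv₀, map_inv₀, hx]
  | mul x y _ _ hx hy => rw [map_mul, map_mul, map_mul, map_mul, hx, hy]

section stable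

variable {p : ℕ} {T : Type} (lab : ℂ → T) {J : Type} [Group J] [Finite J]

lemma qp_stable (U : Set (RingAut ℂ)) (t : T) : Stable (Qp p lab U t (J := J)) := by
  have : Fintype J := Fintype.ofFinite J
  intro τ χ h hQ
  obtain ⟨⟨m, hm, hpm⟩, h2, h3⟩ := hQ
  have h1 : τ (χ 1) = χ 1 := by rw [hm, map_natCast]
  refine ⟨⟨m, h1.trans hm, hpm⟩, (congrArg lab h1).trans h2, fun σ hσ g => ?_⟩
  have hn : Nat.card J ≠ 0 := Nat.card_pos.ne'
  have h4 := comm_roots hn (Complex.isPrimitiveRoot_exp _ hn) (σ : ℂ →+* ℂ) τ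
    (char_mem (Complex.isPrimitiveRoot_exp _ hn) hn (fun g => pow_card_eq_one') h g)
  change σ (τ (χ g)) = τ (σ (χ g)) at h4
  rw [h4, h3 σ hσ g]

end stable

/-- the action of the automorphisms of `ℂ` -/
instance actIrr (p : ℕ) (J : Type) [Group J] [Finite J] : MulAction (RingAut ℂ) (IrrP p J) where
  smul σ χ := ⟨fun g => σ (χ.1 g), by
    have : Fintype J := Fintype.ofFinite J
    exact irr_twist (σ : ℂ →+* ℂ) χ.2.1, by
    obtain ⟨m, hm, hpm⟩ := χ.2.2
    exact ⟨m, (congrArg σ hm).trans (map_natCast σ m), hpm⟩⟩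
  one_smul χ := rfl
  mul_smul σ τ χ := rfl

lemma smul_apply {p : ℕ} {J : Type} [Group J] [Finite J] (σ : RingAut ℂ) (χ : IrrP p J) (g : J) :
    (σ • χ).1 g = σ (χ.1 g) := rfl

instance finite_IrrP (p : ℕ) (J : Type) [Group J] [Finite J] : Finite (IrrP p J) := by
  have : Fintype J := Fintype.ofFinite J
  exact finite_irr (H := J) (fun χ => ∃ m : ℕ, χ 1 = (m : ℂ) ∧ ¬ p ∣ m)

/-- there is a bijection between the irreducible characters of degree prime to `p` of `J` and `K`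
which commutes with the automorphisms in `S` and preserves the label of the degree and the linear
character of `W` -/
def CorrI (p : ℕ) (S : Set (RingAut ℂ)) {T : Type} (lab : ℂ → T) {J K W : Type} [Group J]
    [Group K] [Group W] (iJ : W →* J) (iK : W →* K) : Prop :=
  ∃ f : IrrP p J ≃ IrrP p K,
    (∀ σ ∈ S, ∀ χ ψ : IrrP p J, (∀ g, ψ.1 g = σ (χ.1 g)) → ∀ g, (f ψ).1 g = σ ((f χ).1 g)) ∧
    (∀ χ, lab ((f χ).1 1) = lab (χ.1 1)) ∧
    ∀ χ w, χ.1 (iJ w) / χ.1 1 = (f χ).1 (iK w) / (f χ).1 1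

section

variable {p : ℕ} {S : Set (RingAut ℂ)} {T : Type} {lab : ℂ → T} {J K W : Type} [Group J]
    [Group K] [Group W] [Finite J] [Finite K] {iJ : W →* J} {iK : W →* K}

omit [Finite J] in
lemma overI_iff {lam : W →* ℂˣ} {χ : J → ℂ} (hi : ∀ w g, iJ w * g = g * iJ w) (h : IsIrrChar χ) :
    OverI iJ lam χ ↔ ∀ w, χ (iJ w) / χ 1 = (lam w : ℂ) := by
  constructor
  · intro hl w
    exact overI_val h hl w
  · intro hl w x
    rw [central_char h (hi w), hl]

lemma cnt_eq_card (p : ℕ) (lab : ℂ → T) (hi : ∀ w g, iJ w * g = g * iJ w) (U : Set (RingAut ℂ))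
    (t : T) (lam : W →* ℂˣ) : cnt iJ (Qp p lab U t) lam =
      Nat.card {χ : IrrP p J // (∀ w, χ.1 (iJ w) / χ.1 1 = (lam w : ℂ)) ∧ lab (χ.1 1) = t ∧
        ∀ σ ∈ U, ∀ g, σ (χ.1 g) = χ.1 g} := by
  unfold cnt
  exact Nat.card_congr
    { toFun := fun χ => ⟨⟨χ.1, χ.2.1, χ.2.2.2.1⟩, (overI_iff hi χ.2.1).mp χ.2.2.1, χ.2.2.2.2⟩
      invFun := fun χ => ⟨χ.1.1, χ.1.2.1, (overI_iff hi χ.1.2.1).mpr χ.2.1, χ.1.2.2, χ.2.2⟩
      left_inv := fun χ => rfl
      right_inv := fun χ => rfl }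

theorem cnt_of_corr (hJ : ∀ w g, iJ w * g = g * iJ w) (hK : ∀ w g, iK w * g = g * iK w)
    (h : CorrI p S lab iJ iK) {U : Set (RingAut ℂ)} (hU : U ⊆ Subgroup.closure S) (t : T)
    (lam : W →* ℂˣ) : cnt iJ (Qp p lab U t) lam = cnt iK (Qp p lab U t) lam := by
  obtain ⟨f, h1, h2, h3⟩ := h
  have hcl : ∀ σ ∈ Subgroup.closure S, ∀ χ : IrrP p J, f (σ • χ) = σ • f χ := by
    intro σ hσ
    induction hσ using Subgroup.closure_induction with
    | mem σ hσ =>
      intro χ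
      apply Subtype.ext
      funext g
      exact h1 σ hσ χ (σ • χ) (fun g => rfl) g
    | one =>
      intro χ
      rw [one_smul, one_smul]
    | mul σ τ _ _ hσ hτ =>
      intro χ
      rw [mul_smul, mul_smul, hσ, hτ]
    | inv σ _ hσ =>
      intro χ
      rw [eq_inv_smul_iff, ← hσ, smul_inv_smul]
  rw [cnt_eq_card p lab hJ, cnt_eq_card p lab hK]
  refine Nat.card_congr (f.subtypeEquiv fun χ => ?_)
  have hfix : ∀ (σ : RingAut ℂ) {J : Type} [Group J] [Finite J] (χ : IrrP p J),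
      (∀ g, σ (χ.1 g) = χ.1 g) ↔ σ • χ = χ := by
    intro σ J _ _ χ
    constructor
    · intro h
      exact Subtype.ext (funext h)
    · intro h g
      exact congrFun (congrArg Subtype.val h) g
  refine and_congr ?_ (and_congr ?_ ?_)
  · refine forall_congr' fun w => ?_
    rw [h3]
  · rw [h2]
  · refine forall_congr' fun σ => forall_congr' fun hσ => ?_
    rw [hfix, hfix, ← hcl σ (hU hσ) χ]
    exact ⟨fun h => by rw [h], fun h => f.injective h⟩

theorem corr_of_cnt [Finite W] (hJ : ∀ w g, iJ w * g = g * iJ w) (hK : ∀ w g, iK w * g = g * iK w)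
    (h : ∀ U : Set (RingAut ℂ), U ⊆ Subgroup.closure S → ∀ (t : T) (lam : W →* ℂˣ),
      cnt iJ (Qp p lab U t) lam = cnt iK (Qp p lab U t) lam) : CorrI p S lab iJ iK := by
  let _ : MulAction (Subgroup.closure S) ((W → ℂ) × T) :=
    { smul := fun σ l => (fun w => (σ : RingAut ℂ) (l.1 w), l.2)
      one_smul := fun l => rfl
      mul_smul := fun σ τ l => rfl }
  have hsl : ∀ (σ : Subgroup.closure S) (l : (W → ℂ) × T),
      σ • l = (fun w => (σ : RingAut ℂ) (l.1 w), l.2) := fun _ _ => rfl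
  let lb : ∀ {J : Type} [Group J] (i : W →* J), IrrP p J → (W → ℂ) × T :=
    fun i χ => (fun w => χ.1 (i w) / χ.1 1, lab (χ.1 1))
  have hlb : ∀ {J : Type} [Group J] [Finite J] (i : W →* J) (σ : Subgroup.closure S)
      (χ : IrrP p J), lb i (σ • χ) = σ • lb i χ := by
    intro J _ _ i σ χ
    rw [hsl]
    refine Prod.ext ?_ ?_
    · funext w
      change (σ : RingAut ℂ) (χ.1 (i w)) / (σ : RingAut ℂ) (χ.1 1) =
        (σ : RingAut ℂ) (χ.1 (i w) / χ.1 1)
      rw [map_div₀]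
    · change lab ((σ : RingAut ℂ) (χ.1 1)) = lab (χ.1 1)
      obtain ⟨m, hm, _⟩ := χ.2.2
      rw [hm, map_natCast]
  have hmk : ∀ {J : Type} [Group J] [Finite J] (i : W →* J) (hi : ∀ w g, i w * g = g * i w)
      (U : Subgroup (Subgroup.closure S)) (t : T) (lam : W →* ℂˣ),
      mark (lb i) U ((fun w => ((lam w : ℂˣ) : ℂ)), t) =
        cnt i (Qp p lab (Subtype.val '' (U : Set (Subgroup.closure S))) t) lam := by
    intro J _ _ i hi U t lam
    rw [cnt_eq_card p lab hi]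
    unfold mark
    refine Nat.card_congr (Equiv.subtypeEquivRight fun χ => ?_)
    constructor
    · rintro ⟨h1, h2⟩
      refine ⟨fun w => congrFun (congrArg Prod.fst h1) w, congrArg Prod.snd h1, ?_⟩
      rintro _ ⟨σ, hσ, rfl⟩ g
      exact congrFun (congrArg Subtype.val (h2 σ hσ)) g
    · rintro ⟨h1, h2, h3⟩
      refine ⟨Prod.ext (funext h1) h2, fun σ hσ => ?_⟩
      exact Subtype.ext (funext fun g => h3 _ ⟨σ, hσ, rfl⟩ g)
  have hno : ∀ {J : Type} [Group J] [Finite J] (i : W →* J) (hi : ∀ w g, i w * g = g * i w)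
      (U : Subgroup (Subgroup.closure S)) (l : (W → ℂ) × T),
      (¬ ∃ lam : W →* ℂˣ, l.1 = fun w => ((lam w : ℂˣ) : ℂ)) → mark (lb i) U l = 0 := by
    intro J _ _ i hi U l hl
    unfold mark
    have : IsEmpty {χ : IrrP p J // lb i χ = l ∧ ∀ g ∈ U, g • χ = χ} := by
      constructor
      rintro ⟨χ, h1, _⟩
      apply hl
      obtain ⟨lam, hlam⟩ := exists_overI i hi χ.2.1
      refine ⟨lam, ?_⟩
      rw [← h1]
      funext w
      exact overI_val χ.2.1 hlam w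
    exact Nat.card_of_isEmpty
  obtain ⟨f, h1, h2⟩ := burnside (M := Subgroup.closure S) (L := (W → ℂ) × T) _ (IrrP p J)
    (IrrP p K) (lb iJ) (lb iK) (hlb iJ) (hlb iK) (by
      rintro U ⟨φ, t⟩
      by_cases hl : ∃ lam : W →* ℂˣ, φ = fun w => ((lam w : ℂˣ) : ℂ)
      · obtain ⟨lam, rfl⟩ := hl
        rw [hmk iJ hJ, hmk iK hK]
        apply h
        rintro _ ⟨σ, _, rfl⟩
        exact σ.2
      · rw [hno iJ hJ U (φ, t) hl, hno iK hK U (φ, t) hl]) le_rfl
  refine ⟨f, ?_, ?_, ?_⟩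
  · intro σ hσ χ ψ hψ g
    have h3 : ψ = (⟨σ, Subgroup.subset_closure hσ⟩ : Subgroup.closure S) • χ :=
      Subtype.ext (funext hψ)
    rw [h3, h1]
    rfl
  · intro χ
    exact congrArg Prod.snd (h2 χ)
  · intro χ w
    exact (congrFun (congrArg Prod.fst (h2 χ)) w).symm

end

end Pool.Agent.X209.CC
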