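import Pool.Agent.X209.CC.Gal2
import Pool.Agent.Y63.NV.Infl

/-!
# Counting characters over central characters
-/

open scoped Classical BigOperators
open Pool.Agent.Helper884.IC Pool.Agent.Y63.AWC
open Pool.Agent.X209.PJ (central_char irr_twist finite_irr)

set_option linter.unusedSectionVars false
set_option linter.unusedVariables false

noncomputable section

namespace Pool.Agent.X209.CC

variable {J W : Type} [Group J] [Group W]

/-- the character `χ` of `J` lies over the linear character `lam` of `W`, for `i : W → J` -/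
def OverI (i : W →* J) (lam : W →* ℂˣ) (χ : J → ℂ) : Prop :=
  ∀ (w : W) (x : J), χ (i w * x) = (lam w : ℂ) * χ x

/-- the number of the irreducible characters of `J` over `lam` with the property `Q` -/
def cnt (i : W →* J) (Q : (J → ℂ) → Prop) (lam : W →* ℂˣ) : ℕ :=
  Nat.card {χ : J → ℂ // IsIrrChar χ ∧ OverI i lam χ ∧ Q χ}

/-- `Q` is stable under Galois conjugation -/
def Stable (Q : (J → ℂ) → Prop) : Prop :=
  ∀ (τ : ℂ →+* ℂ) (χ : J → ℂ), IsIrrChar χ → Q χ → Q (fun g => τ (χ g))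

variable [Finite J] [Finite W]

instance finite_homW : Finite (W →* ℂˣ) := by
  have hne : NeZero (Nat.card W) := ⟨Nat.card_pos.ne'⟩
  have hfin : Finite (rootsOfUnity (Nat.card W) ℂ) := inferInstance
  have hmem : ∀ (lam : W →* ℂˣ) (a : W), lam a ∈ rootsOfUnity (Nat.card W) ℂ := by
    intro lam a
    rw [mem_rootsOfUnity, ← map_pow, pow_card_eq_one', map_one]
  refine Finite.of_injective (fun (lam : W →* ℂˣ) (a : W) =>
    (⟨lam a, hmem lam a⟩ : rootsOfUnity (Nat.card W) ℂ)) ?_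
  intro lam mu h
  refine MonoidHom.ext fun a => ?_
  have h1 := congrFun h a
  exact congrArg Subtype.val h1

lemma cnt_le (i : W →* J) {Q : (J → ℂ) → Prop} (hQ : Stable Q) {lam mu : W →* ℂˣ}
    (hk : lam.ker = mu.ker) : cnt i Q lam ≤ cnt i Q mu := by
  have : Fintype J := Fintype.ofFinite J
  obtain ⟨k, ζ, τ, h1, h2, h3, rfl⟩ := exists_gal2 lam mu hk (n := Nat.card J * Nat.card W)
    (mul_ne_zero Nat.card_pos.ne' Nat.card_pos.ne') (fun w => by
      rw [mul_comm, pow_mul, pow_card_eq_one', one_pow])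
  have hne : NeZero (Nat.card J * Nat.card W) :=
    ⟨mul_ne_zero Nat.card_pos.ne' Nat.card_pos.ne'⟩
  have hroot : ∀ w : W, τ (lam w : ℂ) = (lam w : ℂ) ^ k := by
    intro w
    obtain ⟨j, _, hj⟩ := h1.eq_pow_of_pow_eq_one (ξ := ((lam w : ℂˣ) : ℂ)) (by
      rw [← Units.val_pow_eq_pow_val, ← map_pow, mul_comm, pow_mul, pow_card_eq_one', one_pow,
        map_one, Units.val_one])
    rw [← hj, map_pow, h2, ← pow_mul, ← pow_mul, mul_comm]
  unfold cnt
  have hfin := finite_irr (H := J) (fun χ => OverI i (lam ^ k) χ ∧ Q χ)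
  refine Nat.card_le_card_of_injective (fun χ => ⟨fun g => τ (χ.1 g), irr_twist τ χ.2.1, ?_,
    hQ τ _ χ.2.1 χ.2.2.2⟩) ?_
  · intro w x
    simp only []
    rw [χ.2.2.1 w x, map_mul, hroot, MonoidHom.pow_apply, Units.val_pow_eq_pow_val]
  · intro χ ψ h
    apply Subtype.ext
    funext g
    exact τ.injective (congrFun (congrArg Subtype.val h) g)

/-- the numbers only depend on the kernel -/
theorem cnt_ker (i : W →* J) {Q : (J → ℂ) → Prop} (hQ : Stable Q) {lam mu : W →* ℂˣ}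
    (hk : lam.ker = mu.ker) : cnt i Q lam = cnt i Q mu :=
  le_antisymm (cnt_le i hQ hk) (cnt_le i hQ hk.symm)

lemma exists_overI (i : W →* J) (hi : ∀ w g, i w * g = g * i w) {χ : J → ℂ} (h : IsIrrChar χ) :
    ∃ lam : W →* ℂˣ, OverI i lam χ := by
  have h1 : χ 1 ≠ 0 := one_ne h
  have hc : ∀ (w : W) (x : J), χ (i w * x) = χ (i w) / χ 1 * χ x :=
    fun w x => central_char h (hi w) x
  let f : W →* ℂ :=
    { toFun := fun w => χ (i w) / χ 1
      map_one' := by rw [map_one, div_self h1]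
      map_mul' := fun a b => by
        rw [map_mul, hc a (i b)]
        field_simp }
  exact ⟨f.toHomUnits, fun w x => hc w x⟩

omit [Finite J] [Finite W] in
lemma overI_val {i : W →* J} {χ : J → ℂ} (h : IsIrrChar χ) {lam : W →* ℂˣ}
    (hl : OverI i lam χ) (w : W) : χ (i w) / χ 1 = (lam w : ℂ) := by
  have h0 : χ 1 ≠ 0 := one_ne h
  have h1 := hl w 1
  rw [mul_one] at h1
  rw [h1, mul_div_assoc, div_self h0, mul_one]

omit [Finite J] [Finite W] in
lemma overI_unique {i : W →* J} {χ : J → ℂ} (h : IsIrrChar χ) {lam mu : W →* ℂˣ}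
    (h1 : OverI i lam χ) (h2 : OverI i mu χ) : lam = mu := by
  ext w
  rw [← overI_val h h1, ← overI_val h h2]

/-- the number of the characters trivial on `Y` -/
def cntTriv (i : W →* J) (Q : (J → ℂ) → Prop) (Y : Subgroup W) : ℕ :=
  Nat.card {χ : J → ℂ // IsIrrChar χ ∧ (∀ y ∈ Y, ∀ x, χ (i y * x) = χ x) ∧ Q χ}

/-- the linear characters trivial on `Y` -/
def LamW [Fintype (W →* ℂˣ)] (Y : Subgroup W) : Finset (W →* ℂˣ) :=
  Finset.univ.filter fun lam => Y ≤ lam.ker

theorem cntTriv_eq [Fintype (W →* ℂˣ)] (i : W →* J) (hi : ∀ w g, i w * g = g * i w)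
    (Q : (J → ℂ) → Prop) (Y : Subgroup W) : cntTriv i Q Y = ∑ lam ∈ LamW Y, cnt i Q lam := by
  unfold cntTriv cnt
  have : Fintype J := Fintype.ofFinite J
  have hfin : ∀ lam : W →* ℂˣ, Finite {χ : J → ℂ // IsIrrChar χ ∧ OverI i lam χ ∧ Q χ} :=
    fun lam => finite_irr (H := J) (fun χ => OverI i lam χ ∧ Q χ)
  have h1 : Nat.card {χ : J → ℂ // IsIrrChar χ ∧ (∀ y ∈ Y, ∀ x, χ (i y * x) = χ x) ∧ Q χ} =
      Nat.card (Σ lam : {lam : W →* ℂˣ // lam ∈ LamW Y},
        {χ : J → ℂ // IsIrrChar χ ∧ OverI i lam.1 χ ∧ Q χ}) := by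
    have hspec : ∀ χ : {χ : J → ℂ // IsIrrChar χ ∧ (∀ y ∈ Y, ∀ x, χ (i y * x) = χ x) ∧ Q χ},
        ∃ lam : W →* ℂˣ, lam ∈ LamW Y ∧ OverI i lam χ.1 := by
      rintro ⟨χ, hχ, ht, _⟩
      obtain ⟨lam, hlam⟩ := exists_overI i hi hχ
      refine ⟨lam, ?_, hlam⟩
      rw [LamW, Finset.mem_filter]
      refine ⟨Finset.mem_univ _, fun y hy => ?_⟩
      have h0 : χ 1 ≠ 0 := one_ne hχ
      rw [MonoidHom.mem_ker]
      apply Units.ext
      rw [← overI_val hχ hlam y, Units.val_one, div_eq_one_iff_eq h0]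
      have := ht y hy 1
      rwa [mul_one] at this
    choose L hL using hspec
    refine Nat.card_congr
      { toFun := fun χ => ⟨⟨L χ, (hL χ).1⟩, χ.1, χ.2.1, (hL χ).2, χ.2.2.2⟩
        invFun := fun s => ⟨s.2.1, s.2.2.1, ?_, s.2.2.2.2⟩
        left_inv := fun χ => rfl
        right_inv := ?_ }
    · intro y hy x
      have h2 := s.2.2.2.1 y x
      have h3 := (Finset.mem_filter.mp s.1.2).2 hy
      rw [MonoidHom.mem_ker.mp h3, Units.val_one, one_mul] at h2
      exact h2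
    · rintro ⟨⟨lam, hlam⟩, χ, h2, h3, h4⟩
      have h5 : ∀ hh, L ⟨χ, hh⟩ = lam := fun hh => overI_unique h2 (hL ⟨χ, hh⟩).2 h3
      refine Sigma.ext (Subtype.ext (h5 _)) ?_
      simp only []
      congr 1
      · funext ψ
        rw [h5]
      · apply proof_irrel_heq
  rw [h1, Nat.card_sigma]
  exact Finset.sum_coe_sort (LamW Y) (fun lam => Nat.card {χ : J → ℂ // IsIrrChar χ ∧
    OverI i lam χ ∧ Q χ})

/-- inversion -/
theorem inversion [Fintype (W →* ℂˣ)] (c c' : (W →* ℂˣ) → ℕ)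
    (hc : ∀ lam mu : W →* ℂˣ, lam.ker = mu.ker → c lam = c mu)
    (hc' : ∀ lam mu : W →* ℂˣ, lam.ker = mu.ker → c' lam = c' mu)
    (h : ∀ Y : Subgroup W, ∑ lam ∈ LamW Y, c lam = ∑ lam ∈ LamW Y, c' lam) :
    ∀ (n : ℕ) (lam : W →* ℂˣ), Nat.card W - Nat.card lam.ker ≤ n → c lam = c' lam := by
  intro n
  induction n using Nat.strong_induction_on with
  | _ n ih =>
    intro lam hn
    have h1 := h lam.ker
    rw [← Finset.sum_filter_add_sum_filter_not (LamW lam.ker) (fun mu => mu.ker = lam.ker),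
      ← Finset.sum_filter_add_sum_filter_not (s := LamW lam.ker) (f := c')
        (fun mu => mu.ker = lam.ker)] at h1
    have h2 : ∑ mu ∈ (LamW lam.ker).filter (fun mu => ¬ mu.ker = lam.ker), c mu =
        ∑ mu ∈ (LamW lam.ker).filter (fun mu => ¬ mu.ker = lam.ker), c' mu := by
      refine Finset.sum_congr rfl fun mu hmu => ?_
      obtain ⟨h3, h4⟩ := Finset.mem_filter.mp hmu
      have h5 : lam.ker < mu.ker := lt_of_le_of_ne (Finset.mem_filter.mp h3).2 (Ne.symm h4)
      have h6 : Nat.card lam.ker < Nat.card mu.ker := by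
        refine lt_of_le_of_ne (Subgroup.card_le_of_le h5.le) fun h6 => ?_
        exact h5.ne (Subgroup.eq_of_le_of_card_ge h5.le h6.ge)
      have h7 : Nat.card mu.ker ≤ Nat.card W := Subgroup.card_le_card_group _
      exact ih (Nat.card W - Nat.card mu.ker) (by omega) mu le_rfl
    rw [h2] at h1
    have h3 := Nat.add_right_cancel h1
    have h4 : ∀ mu ∈ (LamW lam.ker).filter (fun mu => mu.ker = lam.ker), c mu = c lam :=
      fun mu hmu => hc mu lam (Finset.mem_filter.mp hmu).2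
    have h5 : ∀ mu ∈ (LamW lam.ker).filter (fun mu => mu.ker = lam.ker), c' mu = c' lam :=
      fun mu hmu => hc' mu lam (Finset.mem_filter.mp hmu).2
    rw [Finset.sum_congr rfl h4, Finset.sum_congr rfl h5, Finset.sum_const, Finset.sum_const,
      smul_eq_mul, smul_eq_mul] at h3
    have h6 : 0 < ((LamW lam.ker).filter (fun mu => mu.ker = lam.ker)).card := by
      apply Finset.card_pos.mpr
      refine ⟨lam, Finset.mem_filter.mpr ⟨?_, rfl⟩⟩
      rw [LamW, Finset.mem_filter]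
      exact ⟨Finset.mem_univ _, le_rfl⟩
    exact Nat.eq_of_mul_eq_mul_left h6 h3

/-- the characters trivial on all of the kernel of a surjection -/
theorem cnt_infl {K : Type} [Group K] [Finite K] (ρ : J →* K) (hρ : Function.Surjective ρ)
    (i : W →* J) (Y : Subgroup W) (hY : ρ.ker = Y.map i) (Q : (J → ℂ) → Prop) :
    cntTriv i Q Y = Nat.card {ψ : K → ℂ // IsIrrChar ψ ∧ Q (fun x => ψ (ρ x))} := by
  unfold cntTriv
  symm
  refine Nat.card_eq_of_bijective (fun ψ => ⟨fun x => ψ.1 (ρ x), ?_, ?_, ψ.2.2⟩) ⟨?_, ?_⟩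
  · exact Pool.Agent.Y930.NV.irr_inflate ρ hρ ψ.2.1
  · intro y hy x
    have h1 : i y ∈ ρ.ker := by
      rw [hY]
      exact ⟨y, hy, rfl⟩
    simp only []
    rw [map_mul, MonoidHom.mem_ker.mp h1, one_mul]
  · intro ψ φ h
    apply Subtype.ext
    funext u
    obtain ⟨x, rfl⟩ := hρ u
    exact congrFun (congrArg Subtype.val h) x
  · rintro ⟨χ, h1, h2, h3⟩
    have hinf : ∀ q ∈ ρ.ker, ∀ x : J, χ (q * x) = χ x := by
      intro q hq x
      rw [hY] at hq
      obtain ⟨y, hy, rfl⟩ := hq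
      exact h2 y hy x
    obtain ⟨χ', h5, h6⟩ := Pool.Agent.Y63.NV.deflate ρ.ker h1 hinf
    let e := QuotientGroup.quotientKerEquivOfSurjective ρ hρ
    have he : ∀ x : J, e (x : J ⧸ ρ.ker) = ρ x := fun x => rfl
    have h7 : (fun x : J => χ' (e.symm (ρ x))) = χ := by
      funext x
      rw [← he, e.symm_apply_apply, h6]
    have h8 : IsIrrChar (fun u : K => χ' (e.symm u)) := irr_comp e.symm h5
    refine ⟨⟨fun u => χ' (e.symm u), h8, ?_⟩, ?_⟩
    · simp only []
      rw [h7]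
      exact h3
    · apply Subtype.ext
      exact h7

end Pool.Agent.X209.CC
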