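import Pool.Agent.X209.CC.Fin
import Pool.Agent.X209.AM.Corr
import Pool.Agent.X209.PJ.Cyc

/-!
# Groups with cyclic centre suffice
-/

open scoped Classical BigOperators
open Pool.Agent.Helper884.IC Pool.Agent.Y63.AWC
open Pool.Agent.X209.PJ (kerG kerG_le mem_kerG normal_of_center cyclic_quot)

set_option linter.unusedSectionVars false
set_option linter.unusedVariables false

noncomputable section

namespace Pool.Agent.X209.CC

section

variable {p : ℕ} [hp : Fact p.Prime] {S : Set (RingAut ℂ)} {T : Type} {lab : ℂ → T}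
  {G : Type} [Group G] [Finite G] {Z : Subgroup G}

/-- only the quotients by kernels of linear characters of `Z` are needed -/
theorem corrI_of_quot (hZ : Z ≤ Subgroup.center G) (P : Sylow p G)
    (h : ∀ Y : Subgroup G, Y ≤ Z → ∀ hY : Y.Normal, IsCyclic (Z.map (QuotientGroup.mk' Y)) →
        CorrI p S lab (⊥ : Subgroup (G ⧸ Y)).subtype
          (cinc (bot_le : (⊥ : Subgroup (G ⧸ Y)) ≤ Subgroup.center (G ⧸ Y))
            ((P : Subgroup G).map (QuotientGroup.mk' Y)))) :
    CorrI p S lab Z.subtype (cinc hZ (P : Subgroup G)) := by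
  have : Fintype (Z →* ℂˣ) := Fintype.ofFinite _
  have hiG : ∀ (w : Z) (g : G), Z.subtype w * g = g * Z.subtype w :=
    fun w g => (Subgroup.mem_center_iff.mp (hZ w.2) g).symm
  have hiN : ∀ (w : Z) (g : Subgroup.normalizer ((P : Subgroup G) : Set G)),
      cinc hZ (P : Subgroup G) w * g = g * cinc hZ (P : Subgroup G) w :=
    fun w g => Subtype.ext (hiG w g)
  refine corr_of_cnt hiG hiN ?_
  intro U hU t lam
  refine Pool.Agent.X209.AM.inversion' (fun mu => cnt Z.subtype (Qp p lab U t) mu)
    (fun mu => cnt (cinc hZ (P : Subgroup G)) (Qp p lab U t) mu)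
    (fun mu nu hk => cnt_ker _ (qp_stable lab U t) hk)
    (fun mu nu hk => cnt_ker _ (qp_stable lab U t) hk) ?_ _ lam le_rfl
  intro nu
  rw [← cntTriv_eq _ hiG, ← cntTriv_eq _ hiN]
  have hYZ : kerG nu ≤ Z := kerG_le nu
  have hYn : (kerG nu).Normal := normal_of_center (hYZ.trans hZ)
  have hker : (QuotientGroup.mk' (kerG nu)).ker = nu.ker.map Z.subtype := by
    rw [QuotientGroup.ker_mk']
    ext x
    rw [Subgroup.mem_map]
    constructor
    · intro hx
      exact ⟨⟨x, hYZ hx⟩, (mem_kerG nu ⟨x, hYZ hx⟩).mp hx, rfl⟩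
    · rintro ⟨y, hy, rfl⟩
      exact (mem_kerG nu y).mpr hy
  obtain ⟨h1, h2⟩ := counts (p := p) (lab := lab) hZ P (QuotientGroup.mk' (kerG nu))
    (QuotientGroup.mk'_surjective _) nu.ker hker U t
  rw [h1, h2]
  have h3 := cnt_of_corr (fun w g => by
    rw [Subsingleton.elim w 1, map_one, one_mul, mul_one]) (fun w g => by
    rw [Subsingleton.elim w 1, map_one, one_mul, mul_one])
    (h (kerG nu) hYZ hYn (cyclic_quot nu hYn)) hU t 1
  rw [cnt_triv, cnt_triv] at h3
  exact h3

theorem corrZ_of_cyclic (hZ : Z ≤ Subgroup.center G) (P : Sylow p G)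
    (h : ∀ Y : Subgroup G, Y ≤ Z → ∀ _ : Y.Normal, IsCyclic (Z.map (QuotientGroup.mk' Y)) →
      CorrZ p S lab ((P : Subgroup G).map (QuotientGroup.mk' Y)) (⊥ : Subgroup (G ⧸ Y))) :
    CorrZ p S lab (P : Subgroup G) Z := by
  rw [corrZ_iff hZ]
  refine corrI_of_quot hZ P ?_
  intro Y hYZ hY hc
  exact (corrZ_iff bot_le).mp (h Y hYZ hY hc)

end

section glob

variable {p : ℕ} [hp : Fact p.Prime] {S : Set (RingAut ℂ)} {T : Type} {lab : ℂ → T}

lemma corrZ_forget {G : Type} [Group G] {P Z Z' : Subgroup G} (hZ : Z' ≤ Z)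
    (h : CorrZ p S lab P Z) : CorrZ p S lab P Z' := by
  obtain ⟨f, h1, h2, h3⟩ := h
  exact ⟨f, h1, h2, fun χ z hz hN => h3 χ z (hZ hz) hN⟩

theorem corr_all (h : ∀ (G : Type) [Group G] [Finite G], IsCyclic (Subgroup.center G) →
      ∀ P : Sylow p G, CorrZ p S lab (P : Subgroup G) (⊥ : Subgroup G)) :
    ∀ (n : ℕ) (G : Type) [Group G] [Finite G], Nat.card G ≤ n → ∀ P : Sylow p G,
      CorrZ p S lab (P : Subgroup G) (⊥ : Subgroup G) := by
  intro n
  induction n with
  | zero =>
    intro G _ _ hn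
    exact absurd hn (by have := Nat.card_pos (α := G); omega)
  | succ n ih =>
    intro G _ _ hn P
    by_cases hcyc : IsCyclic (Subgroup.center G)
    · exact h G hcyc P
    · refine corrZ_forget bot_le (corrZ_of_cyclic le_rfl P ?_)
      intro Y hYC hYn hc
      refine ih (G ⧸ Y) ?_ (P.mapSurjective (QuotientGroup.mk'_surjective Y))
      have hY : Y ≠ ⊥ := by
        rintro rfl
        apply hcyc
        let f : Subgroup.center G →*
            (Subgroup.center G).map (QuotientGroup.mk' (⊥ : Subgroup G)) :=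
          (QuotientGroup.mk' (⊥ : Subgroup G)).subgroupMap (Subgroup.center G)
        have hf : Function.Injective f := by
          intro a b hab
          have h3 : QuotientGroup.mk' (⊥ : Subgroup G) (a : G) =
            QuotientGroup.mk' (⊥ : Subgroup G) (b : G) := congrArg Subtype.val hab
          have h4 := (QuotientGroup.mk'_eq_mk' (⊥ : Subgroup G)).mp h3
          obtain ⟨z, hz, hz2⟩ := h4
          rw [Subgroup.mem_bot.mp hz, mul_one] at hz2
          exact Subtype.ext hz2
        exact isCyclic_of_injective f hf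
      have h3 := Subgroup.card_mul_index Y
      have h4 : 1 < Nat.card Y := by
        rw [Subgroup.one_lt_card_iff_ne_bot]
        exact hY
      have h5 : Nat.card (G ⧸ Y) = Y.index := rfl
      rw [h5]
      have h6 : 0 < Y.index := Nat.pos_of_ne_zero Subgroup.index_ne_zero_of_finite
      nlinarith

/-- groups with cyclic centre suffice -/
theorem cyclic_centre : (∀ (G : Type) [Group G] [Finite G] (P : Sylow p G),
      CorrZ p S lab (P : Subgroup G) (⊥ : Subgroup G)) ↔
    ∀ (G : Type) [Group G] [Finite G], IsCyclic (Subgroup.center G) →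
      ∀ P : Sylow p G, CorrZ p S lab (P : Subgroup G) (⊥ : Subgroup G) :=
  ⟨fun h G _ _ _ P => h G P, fun h G _ _ P => corr_all h _ G le_rfl P⟩

end glob

end Pool.Agent.X209.CC
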