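import Pool.Agent.X209.CC.Nor

/-!
# The final forms
-/

open scoped Classical BigOperators
open Pool.Agent.Helper884.IC Pool.Agent.Y63.AWC

set_option linter.unusedSectionVars false
set_option linter.unusedVariables false

noncomputable section

namespace Pool.Agent.X209.CC

/-- `f` preserves the characters of `Z`: for `z ∈ Z`, `χ(z)/χ(1) = f(χ)(z)/f(χ)(1)` -/
def PresCentral {p : ℕ} {G : Type} [Group G] (P Z : Subgroup G)
    (f : IrrP p G → IrrP p (Subgroup.normalizer (P : Set G))) : Prop :=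
  ∀ (χ : IrrP p G) (z : G) (_ : z ∈ Z) (hN : z ∈ Subgroup.normalizer (P : Set G)),
    χ.1 z * (f χ).1 1 = (f χ).1 ⟨z, hN⟩ * χ.1 1

/-- `f` commutes with the automorphisms in `S` -/
def Equi {p : ℕ} (S : Set (RingAut ℂ)) {J K : Type} [Group J] [Group K]
    (f : IrrP p J → IrrP p K) : Prop :=
  ∀ σ ∈ S, ∀ χ ψ : IrrP p J, (∀ g, ψ.1 g = σ (χ.1 g)) → ∀ g, (f ψ).1 g = σ ((f χ).1 g)

lemma presCentral_iff {p : ℕ} {G : Type} [Group G] [Finite G] {P Z : Subgroup G}
    (hZ : Z ≤ Subgroup.center G)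
    (f : IrrP p G → IrrP p (Subgroup.normalizer (P : Set G))) :
    PresCentral P Z f ↔ ∀ (χ : IrrP p G) (w : Z),
      χ.1 (Z.subtype w) / χ.1 1 = (f χ).1 (cinc hZ P w) / (f χ).1 1 := by
  constructor
  · intro h χ w
    rw [div_eq_div_iff (one_ne χ.2.1) (one_ne (f χ).2.1)]
    exact h χ w w.2 (cinc hZ P w).2
  · intro h χ z hz hN
    have h1 := h χ ⟨z, hz⟩
    rw [div_eq_div_iff (one_ne χ.2.1) (one_ne (f χ).2.1)] at h1
    exact h1

/-- the general statement -/
def CorrZ (p : ℕ) (S : Set (RingAut ℂ)) {T : Type} (lab : ℂ → T) {G : Type} [Group G]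
    (P Z : Subgroup G) : Prop :=
  ∃ f : IrrP p G ≃ IrrP p (Subgroup.normalizer (P : Set G)),
    Equi S f ∧ (∀ χ, lab ((f χ).1 1) = lab (χ.1 1)) ∧ PresCentral P Z f

lemma corrZ_iff {p : ℕ} {S : Set (RingAut ℂ)} {T : Type} {lab : ℂ → T} {G : Type} [Group G]
    [Finite G] {P Z : Subgroup G} (hZ : Z ≤ Subgroup.center G) :
    CorrZ p S lab P Z ↔ CorrI p S lab Z.subtype (cinc hZ P) := by
  unfold CorrZ CorrI
  refine exists_congr fun f => ?_
  rw [presCentral_iff hZ]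
  rfl

theorem corrZ_main {p : ℕ} [Fact p.Prime] {S : Set (RingAut ℂ)} {T : Type} {lab : ℂ → T}
    {G : Type} [Group G] [Finite G] {Z : Subgroup G} (hZ : Z ≤ Subgroup.center G)
    (P : Sylow p G) :
    CorrZ p S lab (P : Subgroup G) Z ↔ ∀ Y : Subgroup G, Y ≤ Z → ∀ _ : Y.Normal,
      CorrZ p S lab ((P : Subgroup G).map (QuotientGroup.mk' Y)) (⊥ : Subgroup (G ⧸ Y)) := by
  rw [corrZ_iff hZ, main_iff hZ P]
  refine forall_congr' fun Y => forall_congr' fun _ => forall_congr' fun hY => ?_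
  rw [corrZ_iff bot_le]

theorem corrZ_global {p : ℕ} [Fact p.Prime] {S : Set (RingAut ℂ)} {T : Type} {lab : ℂ → T} :
    (∀ (G : Type) [Group G] [Finite G] (P : Sylow p G),
      CorrZ p S lab (P : Subgroup G) (⊥ : Subgroup G)) ↔
    ∀ (G : Type) [Group G] [Finite G] (P : Sylow p G),
      CorrZ p S lab (P : Subgroup G) (Subgroup.center G) := by
  constructor
  · intro h G _ _ P
    rw [corrZ_main le_rfl P]
    intro Y _ hY
    exact h (G ⧸ Y) (P.mapSurjective (QuotientGroup.mk'_surjective Y))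
  · intro h G _ _ P
    obtain ⟨f, h1, h2, h3⟩ := h G P
    refine ⟨f, h1, h2, ?_⟩
    intro χ z hz hN
    exact h3 χ z (by
      rw [Subgroup.mem_bot.mp hz]
      exact Subgroup.one_mem _) hN

end Pool.Agent.X209.CC
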