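import Pool.Agent.X209.PJ.Part

/-!
# Galois conjugate linear characters
-/

open scoped Classical BigOperators

set_option linter.unusedSectionVars false
set_option linter.unusedVariables false

noncomputable section

namespace Pool.Agent.X209.CC

/-- a residue class prime to `m` contains numbers prime to a multiple of `m` -/
lemma exists_coprime {m n r : ℕ} (hn : n ≠ 0) (hmn : m ∣ n) (hr : Nat.Coprime r m) :
    ∃ k : ℕ, k ≡ r [MOD m] ∧ Nat.Coprime k n := by
  have hn' : NeZero n := ⟨hn⟩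
  have hm' : NeZero m := ⟨fun h => hn (by rw [h] at hmn; exact zero_dvd_iff.mp hmn)⟩
  obtain ⟨u, hu⟩ := ZMod.unitsMap_surjective hmn (ZMod.unitOfCoprime r hr)
  refine ⟨(u : ZMod n).val, ?_, ?_⟩
  · rw [← ZMod.natCast_eq_natCast_iff]
    have h1 := congrArg (fun v : (ZMod m)ˣ => (v : ZMod m)) hu
    simp only [ZMod.unitsMap_val, ZMod.coe_unitOfCoprime] at h1
    rw [← h1]
    exact (ZMod.natCast_val (R := ZMod m) (u : ZMod n))
  · exact ZMod.val_coe_unit_coprime u

/-- linear characters with the same kernel are Galois conjugate -/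
theorem exists_gal2 {W : Type} [Group W] [Finite W] (lam mu : W →* ℂˣ) (hk : lam.ker = mu.ker)
    {n : ℕ} (hn0 : n ≠ 0) (hW : ∀ w : W, w ^ n = 1) :
    ∃ (k : ℕ) (ζ : ℂ) (τ : ℂ →+* ℂ), IsPrimitiveRoot ζ n ∧ τ ζ = ζ ^ k ∧ Nat.Coprime k n ∧
      mu = lam ^ k := by
  -- the image is cyclic
  have hfin : Finite lam.range := by
    have : Finite (Set.range lam) := Set.finite_range lam
    exact this
  have hcyc : IsCyclic lam.range := subgroup_units_cyclic lam.range
  obtain ⟨⟨ε, hε⟩, hgen⟩ := hcyc.exists_generator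
  obtain ⟨a0, rfl⟩ := MonoidHom.mem_range.mp hε
  have hgen' : ∀ a : W, ∃ i : ℕ, lam a = lam a0 ^ i := by
    intro a
    have h1 := hgen ⟨lam a, ⟨a, rfl⟩⟩
    have hfo : IsOfFinOrder (⟨lam a0, hε⟩ : lam.range) := isOfFinOrder_of_finite _
    obtain ⟨i, hi⟩ := (hfo.mem_powers_iff_mem_zpowers).mpr h1
    exact ⟨i, (congrArg Subtype.val hi).symm⟩
  set m := orderOf (lam a0) with hm
  have hmn : m ∣ n := by
    apply orderOf_dvd_of_pow_eq_one
    rw [← map_pow, hW, map_one]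
  have hm0 : m ≠ 0 := fun h => hn0 (by rw [h] at hmn; exact zero_dvd_iff.mp hmn)
  -- the order of `mu a0`
  have hordmu : ∀ j : ℕ, mu a0 ^ j = 1 ↔ m ∣ j := by
    intro j
    rw [← map_pow, ← MonoidHom.mem_ker, ← hk, MonoidHom.mem_ker, map_pow, hm,
      orderOf_dvd_iff_pow_eq_one]
  have hprim' : IsPrimitiveRoot ((lam a0 : ℂˣ) : ℂ) m :=
    IsPrimitiveRoot.coe_units_iff.mpr (IsPrimitiveRoot.orderOf _)
  have hne : NeZero m := ⟨hm0⟩
  obtain ⟨r, _, hr⟩ := hprim'.eq_pow_of_pow_eq_one (ξ := ((mu a0 : ℂˣ) : ℂ)) (by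
    rw [← Units.val_pow_eq_pow_val, (hordmu m).mpr dvd_rfl, Units.val_one])
  have hr' : mu a0 = lam a0 ^ r := Units.ext (by rw [← hr, Units.val_pow_eq_pow_val])
  have hmulam : ∀ a : W, mu a = lam a ^ r := by
    intro a
    obtain ⟨i, hi⟩ := hgen' a
    have h1 : a * (a0 ^ i)⁻¹ ∈ lam.ker := by
      rw [MonoidHom.mem_ker, map_mul, map_inv, map_pow, hi, mul_inv_cancel]
    rw [hk, MonoidHom.mem_ker, map_mul, map_inv, map_pow, mul_inv_eq_one] at h1
    rw [h1, hi, hr', ← pow_mul, ← pow_mul, mul_comm]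
  have hcop : Nat.Coprime r m := by
    obtain ⟨r', hr1⟩ := Nat.gcd_dvd_left r m
    obtain ⟨m', hm1⟩ := Nat.gcd_dvd_right r m
    have hd0 : 0 < Nat.gcd r m := Nat.gcd_pos_of_pos_right _ (Nat.pos_of_ne_zero hm0)
    have h1 : mu a0 ^ m' = 1 := by
      have h2 : r * m' = m * r' := by
        calc r * m' = (Nat.gcd r m * r') * m' := by rw [← hr1]
          _ = (Nat.gcd r m * m') * r' := by ring
          _ = m * r' := by rw [← hm1]
      rw [hr', ← pow_mul, h2, pow_mul, hm, pow_orderOf_eq_one, one_pow]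
    have h2 := (hordmu m').mp h1
    have hm'0 : 0 < m' := by
      rcases Nat.eq_zero_or_pos m' with h | h
      · rw [h, mul_zero] at hm1
        exact absurd hm1 hm0
      · exact h
    have h3 := Nat.le_of_dvd hm'0 h2
    rw [Nat.coprime_iff_gcd_eq_one]
    by_contra h4
    have h5 : 2 ≤ Nat.gcd r m := by omega
    have h6 : 2 * m' ≤ Nat.gcd r m * m' := Nat.mul_le_mul_right _ h5
    rw [← hm1] at h6
    omega
  obtain ⟨k, hk1, hk2⟩ := exists_coprime hn0 hmn hcop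
  have hζ := Complex.isPrimitiveRoot_exp n hn0
  obtain ⟨τ, hτ⟩ := Pool.Agent.X209.PJ.exists_tau hn0 hk2 hζ
  refine ⟨k, _, τ, hζ, hτ, hk2, ?_⟩
  ext a
  rw [MonoidHom.pow_apply, hmulam]
  congr 1
  rw [pow_eq_pow_iff_modEq]
  apply (hk1.symm).of_dvd
  apply orderOf_dvd_of_pow_eq_one
  obtain ⟨i, hi⟩ := hgen' a
  rw [hi, ← pow_mul, mul_comm, pow_mul, hm, pow_orderOf_eq_one, one_pow]

end Pool.Agent.X209.CC
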